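import Pool.Agent.Y966.LD.Main4b

/-!
The number of odd integers up to `x` with a given height, uniformly for heights up to
`log x / log (8/3)`.
-/

set_option autoImplicit false

namespace Pool.Agent.Results.MP_2b866c_nt.HeightCounts

/-- `C(m) = (3m+1)/2^e(m)`, `2^e(m)` the largest power of `2` dividing `3m+1` -/
def C (m : ℕ) : ℕ := (3 * m + 1) / 2 ^ padicValNat 2 (3 * m + 1)

/-- `h` is the height of `m`: the least `k ≥ 1` with `C^k(m) = 1` (so it is finite) -/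
def IsHeight (m h : ℕ) : Prop := IsLeast {k : ℕ | 1 ≤ k ∧ C^[k] m = 1} h

/-- the number of odd integers `1 ≤ m ≤ x` with `h(m) = k` -/
noncomputable def N (x : ℝ) (k : ℕ) : ℕ := {m : ℕ | m % 2 = 1 ∧ (m : ℝ) ≤ x ∧ IsHeight m k}.ncard

/-- `S(β) = (1 + β log 3) / log 2` -/
noncomputable def S (β : ℝ) : ℝ := (1 + β * Real.log 3) / Real.log 2

/-- `e(β) = S(β) H(β / S(β)) - β log 3`, where `H` is the binary entropy function -/
noncomputable def e (β : ℝ) : ℝ := S β * Real.binEntropy (β / S β) - β * Real.log 3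

/-- For every `ε > 0`, for all large `x` and uniformly in the integers `1 ≤ k ≤ log x / log (8/3)`
(`1 / log (8/3)` is about `1.0195`), the number of odd `m ≤ x` of height exactly `k` is between
`x^(e(k / log x) - ε)` and `x^(e(k / log x) + ε)`; and `0 < e(β)` for `0 < β ≤ 1 / log (8/3)`. -/
theorem result :
    (∀ ε : ℝ, 0 < ε → ∃ X₀ : ℝ, ∀ x : ℝ, X₀ ≤ x → ∀ k : ℕ, 1 ≤ k →
      (k : ℝ) ≤ Real.log x / Real.log (8 / 3) →
      x ^ (e (k / Real.log x) - ε) ≤ (N x k : ℝ) ∧ (N x k : ℝ) ≤ x ^ (e (k / Real.log x) + ε)) ∧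
    (∀ β : ℝ, 0 < β → β ≤ 1 / Real.log (8 / 3) → 0 < e β) := by
  constructor
  · intro ε hε
    obtain ⟨X₀, _, h⟩ := Pool.Agent.Y966.LD.main_heights hε
    refine ⟨X₀, fun x hx k hk hk2 => h x hx k hk ?_⟩
    rw [one_div, inv_mul_eq_div]
    exact hk2
  · intro β h0 h1
    obtain ⟨g1, g2⟩ := Pool.Agent.Y966.LD.SS_rho h0 h1
    have h3 : e β = Pool.Agent.Y966.LD.SS β *
        Pool.Agent.H395R2.G3.FF (β / Pool.Agent.Y966.LD.SS β) :=
      Pool.Agent.Y966.LD.ee_eq h0.le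
    rw [h3]
    exact mul_pos (Pool.Agent.Y966.LD.SS_pos h0.le) (Pool.Agent.H395R2.G3.FF_pos_of g1
      (lt_of_le_of_lt g2 Pool.Agent.Y966.LD.third_lt) (by norm_num) Pool.Agent.H395R2.G3.FF_low.le)

end Pool.Agent.Results.MP_2b866c_nt.HeightCounts
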