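import Mathlib
import Pool.Agent.H499R2.HL.C
import Pool.Agent.Y964.LW.C4
import Pool.Agent.Y964.LW.C6
import Pool.Agent.Y964.LW.C7

set_option autoImplicit false

/-!
The heights of odd integers under the `3x+1` map and their truncated averages, along sparse
multiplicative sets and multiplicative functions.

The sets `E` here have density zero (like the odd sums of two squares, `E(N) ~ K N / √(log N)`, or the
integers composed of primes from a set of positive relative density). All errors are relative to the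
number of elements of `E`, respectively to the sum of a multiplicative majorant.
-/

namespace Pool.Agent.Results.MP_2b866c_nt.HeightsInSemigroups

open Filter Topology Finset

/-- `C(m) = (3m+1)/2^e(m)`, `2^e(m)` the largest power of `2` dividing `3m+1` -/
def C (m : ℕ) : ℕ := (3 * m + 1) / 2 ^ padicValNat 2 (3 * m + 1)

/-- the height `h(m)`, the least `k ≥ 1` with `C^k(m) = 1`, and `⊤ = ∞` if there is none -/
noncomputable def height (m : ℕ) : ℕ∞ := sInf {k : ℕ∞ | ∃ j : ℕ, 1 ≤ j ∧ C^[j] m = 1 ∧ k = j}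

/-- `min(h(m), L)`, a natural number -/
noncomputable def truncHeight (m L : ℕ) : ℕ := (min (height m) (L : ℕ∞)).toNat

/-- among the odd positive integers, those with the property `P` have the natural density `δ` -/
def HasOddDensity (P : ℕ → Prop) (δ : ℝ) : Prop :=
  Tendsto (fun N : ℕ => 2 / (N : ℝ) * ({m : ℕ | m ≤ N ∧ Odd m ∧ P m}.ncard : ℝ)) atTop (𝓝 δ)

/-- `2 / log (16/9) * log m + x * log 2 * √(2 log m / (log (4/3))^3)` -/
noncomputable def bound (x : ℝ) (m : ℕ) : ℝ :=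
  2 / Real.log (16 / 9) * Real.log m
    + x * (Real.log 2 * Real.sqrt (2 * Real.log m / Real.log (4 / 3) ^ 3))

/-- The distribution function of the standard normal law. -/
noncomputable def Phi (x : ℝ) : ℝ :=
  ProbabilityTheory.cdf (ProbabilityTheory.gaussianReal 0 1) x

/-- The height of `m` is finite, at most `bound x m` and congruent to `b` modulo `q`. -/
def Level (q : ℕ) (b : ℤ) (x : ℝ) (m : ℕ) : Prop :=
  ∃ h : ℕ, height m = h ∧ (h : ℝ) ≤ bound x m ∧ (h : ℤ) ≡ b [ZMOD q]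

/-- `∑_{p ≤ x} h p ≥ c x / log x` for all `x ≥ x₀` (sum over primes). -/
def PrimeMean (c : ℝ) (x₀ : ℕ) (h : ℕ → ℝ) : Prop :=
  ∀ x : ℕ, x₀ ≤ x → c * (x / Real.log x) ≤ ∑ p ∈ (Icc 1 x).filter Nat.Prime, h p

/-- THE RELATIVE AVERAGE of `F N m` over the odd `m ≤ N` is `V` for all bounded multiplicative functions
over all multiplicative majorants with many primes: for all `c > 0`, `x₀`, `ε > 0`, `Q ≥ 1` and `r` prime
to `Q` there is `N₀` such that for all `N ≥ N₀`, for all multiplicative `h` with values in `[0, 1]`,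
supported on the odd integers, with `∑_{p ≤ x} h p ≥ c x / log x` for `x ≥ x₀`, and all multiplicative
`g` with `|g| ≤ h`, the sum of `F N m * g m` over the `m ≤ N` with `m ≡ r` modulo `Q` is `V` times
the sum of `g m` over the same `m`, up to `ε ∑_{m ≤ N} h m`. -/
def RelativeAverage (F : ℕ → ℕ → ℝ) (V : ℝ) : Prop := ∀ (c : ℝ) (x₀ : ℕ) (ε : ℝ) (Q r : ℕ), 0 < c → 0 < ε →
  1 ≤ Q → r.Coprime Q → ∃ N₀ : ℕ, ∀ N : ℕ, N₀ ≤ N → ∀ h : ArithmeticFunction ℝ, h.IsMultiplicative →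
    (∀ n, 0 ≤ h n ∧ h n ≤ 1) → (∀ n, Even n → h n = 0) → PrimeMean c x₀ h →
    ∀ g : ArithmeticFunction ℂ, g.IsMultiplicative → (∀ n, ‖g n‖ ≤ h n) →
    ‖∑ n ∈ (Icc 1 N).filter (fun n => n % Q = r % Q), F N n * g n -
      V * ∑ n ∈ (Icc 1 N).filter (fun n => n % Q = r % Q), g n‖ ≤ ε * ∑ n ∈ Icc 1 N, h n

open scoped Classical in
/-- THE RELATIVE FREQUENCY of the property `P` among the odd integers is `l`: as in `RelativeAverage`, with
the sum of `g m` over the `m ≤ N`, `m ≡ r` modulo `Q`, with the property `P`. -/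
def Relative (P : ℕ → Prop) (l : ℝ) : Prop := ∀ (c : ℝ) (x₀ : ℕ) (ε : ℝ) (Q r : ℕ), 0 < c → 0 < ε →
  1 ≤ Q → r.Coprime Q → ∃ N₀ : ℕ, ∀ N : ℕ, N₀ ≤ N → ∀ h : ArithmeticFunction ℝ, h.IsMultiplicative →
    (∀ n, 0 ≤ h n ∧ h n ≤ 1) → (∀ n, Even n → h n = 0) → PrimeMean c x₀ h →
    ∀ g : ArithmeticFunction ℂ, g.IsMultiplicative → (∀ n, ‖g n‖ ≤ h n) →
    ‖∑ n ∈ (Icc 1 N).filter (fun n => n % Q = r % Q ∧ P n), g n -
      l * ∑ n ∈ (Icc 1 N).filter (fun n => n % Q = r % Q), g n‖ ≤ ε * ∑ n ∈ Icc 1 N, h n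

/-- `E` contains at least `c x / log x` primes `p ≤ x`, for all `x ≥ x₀`. -/
def ManyPrimes (c : ℝ) (x₀ : ℕ) (E : Set ℕ) : Prop :=
  ∀ x : ℕ, x₀ ≤ x → c * (x / Real.log x) ≤ {p : ℕ | p.Prime ∧ p ≤ x ∧ p ∈ E}.ncard

/-- `E` is a multiplicative set of odd positive integers: it contains `1`, and the product of coprime
integers is in `E` if and only if both factors are. -/
def OddMultSet (E : Set ℕ) : Prop :=
  (∀ n ∈ E, Odd n) ∧ 1 ∈ E ∧ ∀ m n : ℕ, m.Coprime n → (m * n ∈ E ↔ m ∈ E ∧ n ∈ E)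

/-- The odd positive sums of two squares. -/
def OddTwoSquares : Set ℕ := {n | Odd n ∧ ∃ x y : ℕ, n = x ^ 2 + y ^ 2}

/-- The odd positive integers all of whose prime factors are congruent modulo `q` to elements of `A`. -/
def OddPrimesIn (q : ℕ) (A : Set ℕ) : Set ℕ := {n | Odd n ∧ ∀ p : ℕ, p.Prime → p ∣ n → ∃ a ∈ A, p % q = a % q}

open Pool.Agent.H499R2.ND in
theorem height_eq {m h : ℕ} (hh : IsHt m h) : height m = h := by
  unfold height
  apply le_antisymm
  · exact sInf_le ⟨h, hh.1, hh.2.1, rfl⟩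
  · refine le_sInf ?_
    rintro k ⟨j, hj, hj1, rfl⟩
    have : h ≤ j := by
      by_contra hlt
      exact hh.2.2 j hj (by omega) hj1
    exact_mod_cast this

open Pool.Agent.H499R2.ND in
theorem exists_isHt {m j : ℕ} (hj : 1 ≤ j) (h : C^[j] m = 1) : ∃ h, IsHt m h := by
  classical
  have hex : ∃ k, 1 ≤ k ∧ C^[k] m = 1 := ⟨j, hj, h⟩
  refine ⟨Nat.find hex, (Nat.find_spec hex).1, (Nat.find_spec hex).2, fun k hk hlt hk1 => ?_⟩
  exact Nat.find_min hex hlt ⟨hk, hk1⟩

open Pool.Agent.H499R2.ND in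
theorem height_top {m : ℕ} (hh : ¬ ∃ h, IsHt m h) : height m = ⊤ := by
  unfold height
  have : {k : ℕ∞ | ∃ j : ℕ, 1 ≤ j ∧ C^[j] m = 1 ∧ k = j} = ∅ := by
    rw [Set.eq_empty_iff_forall_notMem]
    rintro k ⟨j, hj, hj1, _⟩
    exact hh (exists_isHt hj hj1)
  rw [this, sInf_empty]

open Pool.Agent.H499R2.ND in
theorem height_lt_top_iff {m : ℕ} : height m ≠ ⊤ ↔ ∃ h, IsHt m h := by
  constructor
  · intro h
    by_contra hcon
    exact h (height_top hcon)
  · rintro ⟨h, hh⟩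
    rw [height_eq hh]
    exact ENat.natCast_ne_top h

open Pool.Agent.H499R2.ND in
theorem height_iff {m h : ℕ} : height m = h ↔ IsHt m h := by
  constructor
  · intro hm
    obtain ⟨h', hh'⟩ := height_lt_top_iff.1 (show height m ≠ ⊤ by rw [hm]; exact ENat.natCast_ne_top h)
    have h1 := height_eq hh'
    rw [hm] at h1
    have h2 : h = h' := by exact_mod_cast h1
    rw [h2]; exact hh'
  · exact height_eq

open Pool.Agent.H499R2.ND in
theorem odd_density_of {P : ℕ → Prop} {δ : ℝ} (h : Dn (fun m => m % 2 = 1 ∧ P m) (δ / 2)) :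
    HasOddDensity P δ := by
  unfold HasOddDensity
  have h1 := h.const_mul 2
  rw [mul_div_cancel₀ δ (by norm_num : (2 : ℝ) ≠ 0)] at h1
  refine h1.congr fun N => ?_
  have e : {m : ℕ | 1 ≤ m ∧ m ≤ N ∧ m % 2 = 1 ∧ P m} = {m : ℕ | m ≤ N ∧ Odd m ∧ P m} := by
    ext m
    constructor
    · rintro ⟨g1, g2, g3, g4⟩
      exact ⟨g2, Nat.odd_iff.2 g3, g4⟩
    · rintro ⟨g2, g3, g4⟩
      exact ⟨g3.pos, g2, Nat.odd_iff.1 g3, g4⟩
  unfold cnt
  rw [e]
  ring

theorem two_log : 2 / Real.log (16 / 9) = 1 / Real.log (4 / 3) := by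
  have : Real.log (16 / 9) = 2 * Real.log (4 / 3) := by
    rw [show (16 : ℝ) / 9 = (4 / 3) ^ 2 by norm_num, Real.log_pow]; push_cast; ring
  rw [this]
  have : Real.log (4 / 3) ≠ 0 := (Real.log_pos (by norm_num)).ne'
  field_simp

theorem bound_eq (x : ℝ) (m : ℕ) : bound x m = Pool.Agent.H499R2.HL.bo x (Real.log m) := by
  unfold bound Pool.Agent.H499R2.HL.bo
  rw [two_log]

/-- finite heights with a property -/
theorem ht_trans {R : ℕ → Prop} {m : ℕ} (hm : 2 ≤ m) (ho : Odd m) :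
    (∃ k, Pool.Agent.H499R2.HL.H k m ∧ R (Pool.Agent.H499R2.LT.odn k m)) ↔ ∃ h : ℕ, height m = h ∧ R h := by
  have h1 := fun h : ℕ => Pool.Agent.H499R2.HL.ht_H (x := m) (Nat.odd_iff.1 ho) (by omega) h
  constructor
  · rintro ⟨k, hk, hR⟩
    exact ⟨_, height_iff.2 ((h1 _).2 ⟨k, hk, rfl⟩), hR⟩
  · rintro ⟨h, hh, hR⟩
    obtain ⟨k, hk, rfl⟩ := (h1 h).1 (height_iff.1 hh)
    exact ⟨k, hk, hR⟩

theorem trunc_of {m h L : ℕ} (hh : height m = h) : truncHeight m L = min h L := by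
  unfold truncHeight
  rw [hh]
  rcases le_total h L with hl | hl
  · rw [min_eq_left hl, min_eq_left (by exact_mod_cast hl)]
    exact ENat.toNat_natCast _
  · rw [min_eq_right hl, min_eq_right (by exact_mod_cast hl)]
    exact ENat.toNat_natCast _

theorem trunc_top {m L : ℕ} (hh : height m = ⊤) : truncHeight m L = L := by
  unfold truncHeight
  rw [hh, min_eq_right le_top]
  exact ENat.toNat_natCast _

theorem trunc_le (m L : ℕ) : truncHeight m L ≤ L := by
  by_cases h : height m = ⊤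
  · rw [trunc_top h]
  · obtain ⟨k, hk⟩ := ENat.ne_top_iff_exists.1 h
    rw [trunc_of hk.symm]
    exact min_le_right _ _

open Pool.Agent.Y964.LW in
/-- the truncated averages -/
theorem avg_main {δ c0 Λ : ℝ} (hc0 : 0 < c0) (hΛ : c0 < Λ)
    (h1 : ∀ η : ℝ, 0 < η → RelO (fun m => ∃ h : ℕ, height m = h ∧ |(h : ℝ) - c0 * Real.log m| ≤ η * Real.log m) δ)
    (h2 : RelO (fun m => height m = ⊤) (1 - δ)) :
    AvO (fun N m => (truncHeight m ⌊Λ * Real.log N⌋₊ : ℝ) / Real.log N) (δ * c0 + (1 - δ) * Λ) := by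
  have hΛ0 : 0 < Λ := hc0.trans hΛ
  refine avg_of (B := Λ) (v1 := c0) (v2 := Λ) hΛ0 (fun N m => ?_) (by rw [abs_of_pos hc0]; exact hΛ.le)
    (by rw [abs_of_pos hΛ0]) (fun η hη => ?_)
  · have hL : 0 ≤ Real.log N := Real.log_natCast_nonneg N
    rw [abs_of_nonneg (by positivity)]
    rcases hL.eq_or_lt with h | h
    · rw [← h, div_zero]; exact hΛ0.le
    · rw [div_le_iff₀ h]
      calc ((truncHeight m ⌊Λ * Real.log N⌋₊ : ℕ) : ℝ) ≤ (⌊Λ * Real.log N⌋₊ : ℝ) := by exact_mod_cast trunc_le _ _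
        _ ≤ Λ * Real.log N := Nat.floor_le (by positivity)
  · set η0 : ℝ := min (η / 2) ((Λ - c0) / 2) with hη0
    have hη00 : 0 < η0 := lt_min (by positivity) (by linarith)
    have hη01 : η0 ≤ η / 2 := min_le_left _ _
    have hη02 : η0 ≤ (Λ - c0) / 2 := min_le_right _ _
    have tl : Tendsto (fun N : ℕ => Real.log N) atTop atTop :=
      Real.tendsto_log_atTop.comp tendsto_natCast_atTop_atTop
    have t3 : Tendsto (fun L : ℝ => Real.log L / L) atTop (𝓝 0) :=
      Real.isLittleO_log_id_atTop.tendsto_div_nhds_zero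
    have t4 := (t3.comp tl).const_mul (2 * c0)
    rw [mul_zero] at t4
    have hev := (t4.eventually_lt_const (show (0 : ℝ) < η / 2 by positivity)).and
      (tl.eventually_ge_atTop (max 3 (max (2 / (Λ - c0)) (1 / η))))
    obtain ⟨n0, hn0⟩ := eventually_atTop.1 hev
    refine ⟨_, _, δ, 1 - δ, n0 + 2, h1 η0 hη00, h2, by ring, rfl, fun n hn hn2 => ?_, fun N hN n hn1 hn2 ho => ?_⟩
    · obtain ⟨h, hh, _⟩ := hn
      rw [hh] at hn2
      exact absurd hn2 (ENat.natCast_ne_top h)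
    · obtain ⟨g1, g2⟩ := hn0 N (by omega)
      simp only [Function.comp, max_le_iff] at g1 g2
      obtain ⟨g3, g4, g5⟩ := g2
      set L := Real.log N with hL
      have hL0 : 0 < L := by linarith
      have hN0 : (0 : ℝ) < N := by exact_mod_cast (by omega : 0 < N)
      rw [div_le_iff₀ (by linarith)] at g4
      rw [div_le_iff₀ hη] at g5
      have hfl := Nat.lt_floor_add_one (Λ * L)
      have hfl2 : (⌊Λ * L⌋₊ : ℝ) ≤ Λ * L := Nat.floor_le (by positivity)
      have hlogn : Real.log n ≤ L := Real.log_le_log (lt_of_le_of_lt (by positivity) hn1) (by exact_mod_cast hn2)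
      have hlogn2 : L - 2 * Real.log L ≤ Real.log n := by
        have h3 : Real.log (N / L ^ 2) = L - 2 * Real.log L := by
          rw [Real.log_div hN0.ne' (by positivity), Real.log_pow]
          push_cast; ring
        rw [← h3]
        exact Real.log_le_log (by positivity) hn1.le
      have hlogn0 : 0 ≤ Real.log n := Real.log_natCast_nonneg n
      have g1' : 2 * c0 * Real.log L ≤ η / 2 * L := by
        have := mul_le_mul_of_nonneg_right g1.le hL0.le
        have e : 2 * c0 * (Real.log L / L) * L = 2 * c0 * Real.log L := by field_simp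
        rw [e] at this
        exact this
      constructor
      · rintro ⟨h, hh, hb⟩
        show |(truncHeight n ⌊Λ * L⌋₊ : ℝ) / L - c0| ≤ η
        obtain ⟨b1, b2⟩ := abs_le.1 hb
        have c1 : η0 * Real.log n ≤ η0 * L := mul_le_mul_of_nonneg_left hlogn hη00.le
        have c2 : c0 * Real.log n ≤ c0 * L := mul_le_mul_of_nonneg_left hlogn hc0.le
        have c3 : η0 * L ≤ η / 2 * L := mul_le_mul_of_nonneg_right hη01 hL0.le
        have c4 : η0 * L ≤ (Λ - c0) / 2 * L := mul_le_mul_of_nonneg_right hη02 hL0.le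
        have c5 : c0 * (L - 2 * Real.log L) ≤ c0 * Real.log n := mul_le_mul_of_nonneg_left hlogn2 hc0.le
        have c6 : (h : ℝ) ≤ ⌊Λ * L⌋₊ := by nlinarith
        rw [trunc_of hh, min_eq_left (by exact_mod_cast c6)]
        have e : (h : ℝ) / L - c0 = ((h : ℝ) - c0 * L) / L := by field_simp
        rw [e, abs_div, abs_of_pos hL0, div_le_iff₀ hL0, abs_le]
        constructor <;> nlinarith
      · intro hh
        show |(truncHeight n ⌊Λ * L⌋₊ : ℝ) / L - Λ| ≤ η
        rw [trunc_top hh]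
        have e : (⌊Λ * L⌋₊ : ℝ) / L - Λ = ((⌊Λ * L⌋₊ : ℝ) - Λ * L) / L := by field_simp
        rw [e, abs_div, abs_of_pos hL0, div_le_iff₀ hL0, abs_le]
        constructor <;> nlinarith

open scoped Classical in
/-- THE HEIGHTS AND THEIR AVERAGE ORDER ALONG MULTIPLICATIVE SETS AND FUNCTIONS.
Let `δ > 0` be the natural density of the finite heights among the odd positive integers (`δ = 1` if and
only if all heights are finite). In the sense of `Relative` and `RelativeAverage` (sums of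
multiplicative functions `g`, `|g| ≤ h`, over the odd `m ≤ N`, in the reduced residue classes modulo
`Q`, with errors `o(∑ h)`, uniformly in `g` and `h`):
(1) the `m` with infinite height have frequency `1 - δ`;
(2) the `m` with `h(m) ≤ 2 / log (16/9) log m + x log 2 √(2 log m / (log (4/3))^3)` and `h(m) ≡ b` modulo
`q` have frequency `δ Φ(x) / q`, `Φ` the standard normal distribution function;
(3) for every `η > 0` the `m` with `|h(m) - 2 / log (16/9) log m| ≤ η log m` have frequency `δ`;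
(4) for every `Λ > 2 / log (16/9)` the average of `min(h(m), ⌊Λ log N⌋)` is
`(δ 2 / log (16/9) + (1 - δ) Λ) log N`.
(5) SETS. For all `c > 0`, `x₀`, `ε > 0`, `Q`, `r` prime to `Q` and `N ≥ N₀`, for every multiplicative set
`E` of odd positive integers with at least `c x / log x` primes up to `x` for `x ≥ x₀`: if `P` has the
relative frequency `l`, the number of the `m ≤ N` in `E` with `P` and `m ≡ r` modulo `Q` is `l` times the
number of the `m ≤ N` in `E` with `m ≡ r` modulo `Q`, up to `ε` times the number of all `m ≤ N` in `E`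
(uniformly in `E`), and `P` has relative density `l` in `E`; and for `Λ > 2 / log (16/9)` the average of
`min(h(m), ⌊Λ log N⌋)` over the `m ≤ N` in `E` is asymptotic to `(δ 2 / log (16/9) + (1 - δ) Λ) log N`.
(6) The odd sums of two squares, and the odd integers composed of primes in given residue classes modulo
`q` (at least one of them prime to `q`), are such sets `E`. -/
theorem result : ∃ δ : ℝ, 0 < δ ∧ δ ≤ 1 ∧ (δ = 1 ↔ ∀ m : ℕ, Odd m → height m ≠ ⊤) ∧
    HasOddDensity (fun m => height m ≠ ⊤) δ ∧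
    Relative (fun m => height m = ⊤) (1 - δ) ∧
    (∀ (q : ℕ) (b : ℤ) (x : ℝ), 1 ≤ q → Relative (Level q b x) (δ * Phi x / q)) ∧
    (∀ η : ℝ, 0 < η → Relative (fun m => ∃ h : ℕ, height m = h ∧
      |(h : ℝ) - 2 / Real.log (16 / 9) * Real.log m| ≤ η * Real.log m) δ) ∧
    (∀ Λ : ℝ, 2 / Real.log (16 / 9) < Λ →
      RelativeAverage (fun N m => (truncHeight m ⌊Λ * Real.log N⌋₊ : ℝ) / Real.log N)
        (δ * (2 / Real.log (16 / 9)) + (1 - δ) * Λ) ∧
      ∀ (c : ℝ) (x₀ : ℕ) (E : Set ℕ), 0 < c → OddMultSet E → ManyPrimes c x₀ E →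
        Tendsto (fun N : ℕ => (∑ m ∈ (Icc 1 N).filter (fun m => m ∈ E),
          (truncHeight m ⌊Λ * Real.log N⌋₊ : ℝ) / Real.log N) / {m : ℕ | m ≤ N ∧ m ∈ E}.ncard) atTop
          (𝓝 (δ * (2 / Real.log (16 / 9)) + (1 - δ) * Λ))) ∧
    (∀ (P : ℕ → Prop) (l : ℝ), Relative P l →
      (∀ (c : ℝ) (x₀ : ℕ) (ε : ℝ) (Q r : ℕ), 0 < c → 0 < ε → 1 ≤ Q → r.Coprime Q →
        ∃ N₀ : ℕ, ∀ N : ℕ, N₀ ≤ N → ∀ E : Set ℕ, OddMultSet E → ManyPrimes c x₀ E →
        |({n : ℕ | n ≤ N ∧ n ∈ E ∧ n % Q = r % Q ∧ P n}.ncard : ℝ) -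
          l * {n : ℕ | n ≤ N ∧ n ∈ E ∧ n % Q = r % Q}.ncard| ≤ ε * {n : ℕ | n ≤ N ∧ n ∈ E}.ncard) ∧
      (∀ (c : ℝ) (x₀ : ℕ) (E : Set ℕ), 0 < c → OddMultSet E → ManyPrimes c x₀ E →
        Tendsto (fun N : ℕ => ({n : ℕ | n ≤ N ∧ n ∈ E ∧ P n}.ncard : ℝ) / {n : ℕ | n ≤ N ∧ n ∈ E}.ncard)
          atTop (𝓝 l))) ∧
    (OddMultSet OddTwoSquares ∧ ∃ c : ℝ, 0 < c ∧ ∃ x₀ : ℕ, ManyPrimes c x₀ OddTwoSquares) ∧
    (∀ (q a : ℕ) (A : Set ℕ), 1 ≤ q → a ∈ A → a.Coprime q → OddMultSet (OddPrimesIn q A) ∧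
      ∃ c : ℝ, 0 < c ∧ ∃ x₀ : ℕ, ManyPrimes c x₀ (OddPrimesIn q A)) := by
  obtain ⟨δ, h0, h1, h2, h3, h4, h5⟩ := Pool.Agent.Y964.LW.rel_laws
  have hBas : ∀ m : ℕ, Odd m → (Pool.Agent.H499R2.ND.Bas m ↔ height m ≠ ⊤) := fun m hm => by
    rw [height_lt_top_iff]
    exact Pool.Agent.H499R2.ND.ht_iff hm
  have hfin : ∀ m : ℕ, Odd m → ((∃ k, Pool.Agent.H499R2.HL.H k m) ↔ height m ≠ ⊤) := fun m hm => by
    rw [← hBas m hm]
    exact (Pool.Agent.Y964.LW.hit_iff m).symm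
  have hinf : Pool.Agent.Y964.LW.RelO (fun m => height m = ⊤) (1 - δ) := by
    refine Pool.Agent.Y964.LW.RelO_of (Pool.Agent.Y964.LW.RL_not h4 (fun _ => Iff.rfl)) 0 (fun n _ ho => ?_)
    rw [hfin n ho, not_not]
  have hll : ∀ η : ℝ, 0 < η → Pool.Agent.Y964.LW.RelO (fun m => ∃ h : ℕ, height m = h ∧
      |(h : ℝ) - 2 / Real.log (16 / 9) * Real.log m| ≤ η * Real.log m) δ := by
    intro η hη
    have hrr := Pool.Agent.H499R2.HL.rr_pos
    have hl2 : 0 < Real.log 2 := Real.log_pos (by norm_num)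
    have h6 := Pool.Agent.Y964.LW.lln (f := fun k n => (Pool.Agent.H499R2.LT.odn k n : ℝ))
      (α := 1 / Real.log (4 / 3))
      (σ := Real.log 2 * Pool.Agent.H499R2.HL.rr) (δ := δ) (η := η) (by positivity) h0.le h1 hη (fun x => by
        have h7 := ((h5 1 0 0 le_rfl).2.2 x).2.2
        have e1 : δ / ((1 : ℕ) : ℝ) * Pool.Agent.H499R2.ND.Phi x = δ * Pool.Agent.H499R2.ND.Phi x := by simp
        rw [e1] at h7
        refine Pool.Agent.Y964.LW.RL_congr 0 (fun n _ => exists_congr fun k => and_congr_right fun _ => ?_) h7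
        rw [← Pool.Agent.Y964.LW.bo_thr]
        simp [Int.modEq_one]) h4
    refine Pool.Agent.Y964.LW.RelO_of h6 2 (fun n hn ho => ?_)
    rw [two_log]
    exact ht_trans (R := fun h => |(h : ℝ) - 1 / Real.log (4 / 3) * Real.log n| ≤ η * Real.log n) hn ho
  have hav : ∀ Λ : ℝ, 2 / Real.log (16 / 9) < Λ → Pool.Agent.Y964.LW.AvO
      (fun N m => (truncHeight m ⌊Λ * Real.log N⌋₊ : ℝ) / Real.log N)
        (δ * (2 / Real.log (16 / 9)) + (1 - δ) * Λ) := fun Λ hΛ =>
    avg_main (div_pos (by norm_num) (Real.log_pos (by norm_num))) hΛ hll hinf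
  have hset : ∀ E : Set ℕ, OddMultSet E → (0 ∉ E ∧ 1 ∈ E ∧ ∀ m n : ℕ, m.Coprime n → (m * n ∈ E ↔ m ∈ E ∧ n ∈ E)) :=
    fun E hE => ⟨fun h => by have := hE.1 0 h; simp at this, hE.2⟩
  refine ⟨δ, h0, h1, ?_, ?_, hinf, fun q b x hq => ?_, hll, fun Λ hΛ => ⟨hav Λ hΛ, ?_⟩, fun P l hP => ⟨?_, ?_⟩, ?_, ?_⟩
  · rw [h2]
    refine Iff.trans Pool.Agent.H499R2.ND.bas_all_iff ?_
    exact forall_congr' fun m => forall_congr' fun _ => height_lt_top_iff.symm
  · apply odd_density_of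
    have h6 : Pool.Agent.H499R2.ND.Dn (fun m => m % 2 = 1 ∧ Pool.Agent.H499R2.ND.Bas m) (δ / 2) := by
      have := Pool.Agent.H499R2.ND.inv_prog Pool.Agent.H499R2.ND.Bas_inv h3 (q := 2) (by norm_num) 1
      exact_mod_cast this
    exact Pool.Agent.H499R2.LT.Dn_iff (fun n _ => and_congr_right fun h => hBas n (Nat.odd_iff.2 h)) h6
  · have h6 := ((h5 q 0 b hq).2.2 x).2.2
    have e : δ / (q : ℝ) * Pool.Agent.H499R2.ND.Phi x = δ * Phi x / q := by
      unfold Phi
      rw [← Pool.Agent.H499R2.ND.phi_cdf]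
      ring
    rw [e] at h6
    refine Pool.Agent.Y964.LW.RelO_of h6 2 (fun n hn ho => ?_)
    rw [← bound_eq]
    exact ht_trans (R := fun h => (h : ℝ) ≤ bound x n ∧ (h : ℤ) ≡ b [ZMOD q]) hn ho
  · intro c x₀ E hc hE hp
    exact Pool.Agent.Y964.LW.AvO.lim (hav Λ hΛ) c x₀ E hc (hset E hE) hE.1 hp
  · intro c x₀ ε Q r hc hε hQ hr
    obtain ⟨N0, g0⟩ := Pool.Agent.Y964.LW.RelO.sets hP c x₀ ε Q r hc hε hQ hr
    exact ⟨N0, fun N hN E hE hp => g0 N hN E (hset E hE) hE.1 hp⟩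
  · intro c x₀ E hc hE hp
    exact Pool.Agent.Y964.LW.RelO.lim hP c x₀ E hc (hset E hE) hE.1 hp
  · exact Pool.Agent.Y964.LW.odd_two_sq (fun n => Iff.rfl)
  · intro q a A hq haA ha
    exact Pool.Agent.Y964.LW.odd_primes_in hq (fun n => Iff.rfl) haA ha

end Pool.Agent.Results.MP_2b866c_nt.HeightsInSemigroups
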