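import Pool.Agent.Y965.PL.Hei

set_option autoImplicit false

/-!
# Heights of the odd terms of the sequences `⌊n ^ c⌋`

Let `1 < c < 101/100`. The heights of the odd numbers among the `⌊n ^ c⌋` are distributed as those of all
odd integers: every bounded function of the height has the same averages, with a power saving error term
which is uniform in the function; the limit law holds, and the truncated average order of the height
along the sequence is the expected one.

Method: a dispersion argument. With `2 ^ t ≈ N ^ 0.65` the number of odd terms of the trajectory of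
`m ∈ (N ^ 0.99, N]` before `1` is a function of `T^t(m)` and the number of odd terms before it; the
fibres of this pair of functions have about `N ^ 0.13` elements, and the correlations of the phases
`k m ^ (1 / c)`, and of `k (2 m) ^ (1 / c)`, over the pairs `m, m + h` of elements of one fibre are small
by the inequality of Kusmin and Landau. The odd terms are all terms without the even ones, and the height
of the odd part of `2 m` is that of the odd part of `m`.
-/

namespace Pool.Agent.Results.MP_2b866c_nt.PiatetskiShapiroHeights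

open Filter Topology

/-- `C(m) = (3m+1)/2^e(m)`, `2^e(m)` the largest power of `2` dividing `3m+1` -/
def C (m : ℕ) : ℕ := (3 * m + 1) / 2 ^ padicValNat 2 (3 * m + 1)

/-- the height `h(m)`, the least `k ≥ 1` with `C^k(m) = 1`, and `⊤ = ∞` if there is none -/
noncomputable def height (m : ℕ) : ℕ∞ := sInf {k : ℕ∞ | ∃ j : ℕ, 1 ≤ j ∧ C^[j] m = 1 ∧ k = j}

/-- the height truncated at `t`, that is `min (h(m), t)` -/
noncomputable def truncated (t : ℝ) (m : ℕ) : ℝ := if height m = ⊤ then t else min ((height m).toNat : ℝ) t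

/-- among the odd positive integers, those with the property `P` have the natural density `δ` -/
def HasOddDensity (P : ℕ → Prop) (δ : ℝ) : Prop :=
  Tendsto (fun N : ℕ => 2 / (N : ℝ) * ({m : ℕ | m ≤ N ∧ Odd m ∧ P m}.ncard : ℝ)) atTop (𝓝 δ)

/-- the terms `⌊n ^ c⌋` of the sequence -/
noncomputable def ps (c : ℝ) (n : ℕ) : ℕ := ⌊(n : ℝ) ^ c⌋₊

/-- the set of the `n ≤ X` for which `⌊n ^ c⌋` is odd -/
noncomputable def OddTerms (c : ℝ) (X : ℕ) : Finset ℕ := (Finset.Icc 1 X).filter (fun n => ps c n % 2 = 1)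

/-- `2 / X` times the number of the `n ≤ X` for which `⌊n ^ c⌋` is odd and has the property `P` tends to
`d` -/
def OddDensityAlong (c : ℝ) (P : ℕ → Prop) (d : ℝ) : Prop :=
  Tendsto (fun X : ℕ => 2 / (X : ℝ) * ({n : ℕ | n ∈ OddTerms c X ∧ P (ps c n)}.ncard : ℝ)) atTop (𝓝 d)

/-- `2 / log (16/9) * log m + x * log 2 * √(2 log m / (log (4/3))^3)` -/
noncomputable def bound (x : ℝ) (m : ℕ) : ℝ :=
  2 / Real.log (16 / 9) * Real.log m
    + x * (Real.log 2 * Real.sqrt (2 * Real.log m / Real.log (4 / 3) ^ 3))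

/-- The distribution function of the standard normal law. -/
noncomputable def Phi (x : ℝ) : ℝ :=
  ProbabilityTheory.cdf (ProbabilityTheory.gaussianReal 0 1) x

/-- `m` has a finite height, which is at most `bound x m` and congruent to `b` modulo `q`. -/
def Level (q : ℕ) (b : ℤ) (x : ℝ) (m : ℕ) : Prop :=
  ∃ h : ℕ, height m = h ∧ (h : ℝ) ≤ bound x m ∧ (h : ℤ) ≡ b [ZMOD q]

open Pool.Agent.H499R2.ND in
theorem height_eq {m h : ℕ} (hh : IsHt m h) : height m = h := by
  unfold height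
  apply le_antisymm
  · exact sInf_le ⟨h, hh.1, hh.2.1, rfl⟩
  · refine le_sInf ?_
    rintro k ⟨j, hj, hj1, rfl⟩
    have : h ≤ j := by
      by_contra hlt
      exact hh.2.2 j hj (by omega) hj1
    exact_mod_cast this

open Pool.Agent.H499R2.ND in
theorem exists_isHt {m j : ℕ} (hj : 1 ≤ j) (h : C^[j] m = 1) : ∃ h, IsHt m h := by
  classical
  have hex : ∃ k, 1 ≤ k ∧ C^[k] m = 1 := ⟨j, hj, h⟩
  refine ⟨Nat.find hex, (Nat.find_spec hex).1, (Nat.find_spec hex).2, fun k hk hlt hk1 => ?_⟩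
  exact Nat.find_min hex hlt ⟨hk, hk1⟩

open Pool.Agent.H499R2.ND in
theorem height_top {m : ℕ} (hh : ¬ ∃ h, IsHt m h) : height m = ⊤ := by
  unfold height
  have : {k : ℕ∞ | ∃ j : ℕ, 1 ≤ j ∧ C^[j] m = 1 ∧ k = j} = ∅ := by
    rw [Set.eq_empty_iff_forall_notMem]
    rintro k ⟨j, hj, hj1, _⟩
    exact hh (exists_isHt hj hj1)
  rw [this, sInf_empty]

open Pool.Agent.H499R2.ND in
theorem height_lt_top_iff {m : ℕ} : height m ≠ ⊤ ↔ ∃ h, IsHt m h := by
  constructor
  · intro h
    by_contra hcon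
    exact h (height_top hcon)
  · rintro ⟨h, hh⟩
    rw [height_eq hh]
    exact ENat.natCast_ne_top h

open Pool.Agent.H499R2.ND in
theorem height_iff {m h : ℕ} : height m = h ↔ IsHt m h := by
  constructor
  · intro hm
    obtain ⟨h', hh'⟩ := height_lt_top_iff.1 (show height m ≠ ⊤ by rw [hm]; exact ENat.natCast_ne_top h)
    have h1 := height_eq hh'
    rw [hm] at h1
    have h2 : h = h' := by exact_mod_cast h1
    rw [h2]; exact hh'
  · exact height_eq

open Pool.Agent.H499R2.ND in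
theorem odd_density_of {P : ℕ → Prop} {δ : ℝ} (h : Dn (fun m => m % 2 = 1 ∧ P m) (δ / 2)) :
    HasOddDensity P δ := by
  unfold HasOddDensity
  have h1 := h.const_mul 2
  rw [mul_div_cancel₀ δ (by norm_num : (2 : ℝ) ≠ 0)] at h1
  refine h1.congr fun N => ?_
  have e : {m : ℕ | 1 ≤ m ∧ m ≤ N ∧ m % 2 = 1 ∧ P m} = {m : ℕ | m ≤ N ∧ Odd m ∧ P m} := by
    ext m
    constructor
    · rintro ⟨g1, g2, g3, g4⟩
      exact ⟨g2, Nat.odd_iff.2 g3, g4⟩
    · rintro ⟨g2, g3, g4⟩
      exact ⟨g3.pos, g2, Nat.odd_iff.1 g3, g4⟩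
  unfold cnt
  rw [e]
  ring

theorem bound_eq (x : ℝ) (m : ℕ) : bound x m = Pool.Agent.H499R2.HL.bo x (Real.log m) := by
  unfold bound Pool.Agent.H499R2.HL.bo
  have : Real.log (16 / 9) = 2 * Real.log (4 / 3) := by
    rw [show (16 : ℝ) / 9 = (4 / 3) ^ 2 by norm_num, Real.log_pow]; push_cast; ring
  rw [this]
  have : Real.log (4 / 3) ≠ 0 := (Real.log_pos (by norm_num)).ne'
  congr 2
  field_simp

open Pool.Agent.H499R2.HL Pool.Agent.Y965.PL

theorem level_iff (q : ℕ) (b : ℤ) (x : ℝ) {m : ℕ} (hm : m % 2 = 1) : Level q b x m ↔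
    Lv valH (clsH q b) (th (1 / Real.log (4 / 3)) bO x) m := by
  rw [← lev_ht q b x hm]
  unfold Level
  refine exists_congr fun h => ?_
  rw [height_iff, bound_eq]

theorem height_H {m k : ℕ} (hm : m % 2 = 1) (h : H k m) :
    height m = ((max (Pool.Agent.H499R2.LT.odn k m) 1 : ℕ) : ℕ∞) :=
  height_eq ((ht_max hm _).2 ⟨k, h, rfl⟩)

theorem height_not {m : ℕ} (hm : m % 2 = 1) (h : ¬ ∃ k, H k m) : height m = ⊤ :=
  height_top fun hh => h ((ht_ex hm).1 hh)

theorem along_of {c : ℝ} {P Q : ℕ → Prop} {d : ℝ} (h : MnS (Pool.Agent.Y965.PL.ps c) (ind (fun n => n % 2 = 1 ∧ Q n)) (d / 2))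
    (hPQ : ∀ n, n % 2 = 1 → (P n ↔ Q n)) : OddDensityAlong c P d := by
  classical
  unfold OddDensityAlong
  unfold MnS at h
  have h1 := h.const_mul 2
  rw [mul_div_cancel₀ d (by norm_num : (2 : ℝ) ≠ 0)] at h1
  refine h1.congr fun X => ?_
  have e : {n : ℕ | n ∈ OddTerms c X ∧ P (ps c n)} =
      ((Finset.Icc 1 X).filter fun n => (ps c n % 2 = 1 ∧ Q (ps c n)) : Finset ℕ) := by
    ext n
    simp only [OddTerms, Set.mem_ofPred_eq, Finset.coe_filter, Finset.mem_Icc, Finset.mem_filter]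
    constructor
    · rintro ⟨⟨g1, g2⟩, g3⟩
      exact ⟨g1, g2, (hPQ _ g2).1 g3⟩
    · rintro ⟨g1, g2, g3⟩
      exact ⟨⟨g1, g2⟩, (hPQ _ g2).2 g3⟩
  rw [e, Set.ncard_coe_finset]
  have e2 : ∑ n ∈ Finset.Icc 1 X, ind (fun n => n % 2 = 1 ∧ Q n) (Pool.Agent.Y965.PL.ps c n) =
      (((Finset.Icc 1 X).filter fun n => (ps c n % 2 = 1 ∧ Q (ps c n))).card : ℝ) := by
    rw [Finset.card_filter]
    push_cast
    refine Finset.sum_congr rfl fun n _ => ?_
    by_cases hq : ps c n % 2 = 1 ∧ Q (ps c n)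
    · rw [if_pos hq]
      exact ind_pos (P := fun n => n % 2 = 1 ∧ Q n) hq
    · rw [if_neg hq]
      exact ind_neg (P := fun n => n % 2 = 1 ∧ Q n) hq
  rw [e2]
  ring

theorem log_eq : 2 / Real.log (16 / 9) = 1 / Real.log (4 / 3) := by
  have : Real.log (16 / 9) = 2 * Real.log (4 / 3) := by
    rw [show (16 : ℝ) / 9 = (4 / 3) ^ 2 by norm_num, Real.log_pow]; push_cast; ring
  rw [this]
  have : Real.log (4 / 3) ≠ 0 := (Real.log_pos (by norm_num)).ne'
  field_simp

/-- HEIGHTS ALONG `⌊n ^ c⌋`. Let `δ > 0` be the natural density, among the odd positive integers, of those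
of finite height (`δ = 1` iff all heights are finite), and let `1 < c < 101/100`.

(1) `⌊n ^ c⌋` is odd for one half of the `n`, and among these `n` the proportion of those for which the
height of `⌊n ^ c⌋` is finite is `δ`.

(2) (Uniform transfer.) For every function `φ`, bounded by `1`, the sum of `φ(h(⌊n ^ c⌋))` over the
`n ≤ X` with `⌊n ^ c⌋` odd is the sum of `((m + 1) ^ (1 / c) - m ^ (1 / c)) φ(h(m))` over all odd
`m ≤ X ^ c`, up to `K X ^ (1 - 1 / 4000)`, with `K` independent of `φ` and `X`.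

(3) (Law.) Among the `n` with `⌊n ^ c⌋` odd the proportion of those for which the height of `⌊n ^ c⌋` is
finite, congruent to `b` modulo `q` and at most `bound x` is `δ Phi(x) / q`.

(4) (Truncated average order.) For `Λ > 2 c / log (16/9)` the mean value of `min (h(⌊n ^ c⌋), Λ log X)`
over the `n ≤ X` with `⌊n ^ c⌋` odd is asymptotically
`(δ * 2 c / log (16/9) + (1 - δ) Λ) log X`. -/
theorem result : ∃ δ : ℝ, 0 < δ ∧ δ ≤ 1 ∧ (δ = 1 ↔ ∀ m : ℕ, Odd m → height m ≠ ⊤) ∧
    HasOddDensity (fun m => height m ≠ ⊤) δ ∧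
    ∀ c : ℝ, 1 < c → c < 101 / 100 →
    (OddDensityAlong c (fun _ => True) 1 ∧ OddDensityAlong c (fun m => height m ≠ ⊤) δ) ∧
    (∃ K : ℝ, ∀ φ : ℕ∞ → ℝ, (∀ t, |φ t| ≤ 1) → ∀ X : ℕ, 1 ≤ X →
      |∑ n ∈ OddTerms c X, φ (height (ps c n)) -
        ∑ m ∈ (Finset.Icc 1 (ps c X)).filter (fun m => m % 2 = 1),
          (((m : ℝ) + 1) ^ (1 / c) - (m : ℝ) ^ (1 / c)) * φ (height m)| ≤ K * (X : ℝ) ^ (1 - 1 / 4000 : ℝ)) ∧
    (∀ (q : ℕ) (b : ℤ) (x : ℝ), 1 ≤ q → OddDensityAlong c (Level q b x) (δ * Phi x / q)) ∧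
    ∀ Λ : ℝ, 2 * c / Real.log (16 / 9) < Λ →
      Tendsto (fun X : ℕ => 2 / (X * Real.log X) * ∑ n ∈ OddTerms c X, truncated (Λ * Real.log X) (ps c n))
        atTop (𝓝 (δ * (2 * c / Real.log (16 / 9)) + (1 - δ) * Λ)) := by
  classical
  obtain ⟨δ, hδ, h2, h3⟩ := nat3
  have hν := nu_pos'
  refine ⟨δ, hδ.pos, hδ.le, ?_, ?_, fun c hc hc' => ?_⟩
  · rw [h2]
    refine forall₂_congr fun n _ => ?_
    rw [height_lt_top_iff]
  · apply odd_density_of
    refine Pool.Agent.H499R2.LT.Dn_iff (fun n _ => ?_) h3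
    rw [height_lt_top_iff]
  obtain ⟨K, hK, hT⟩ := transfer_odd hc hc'
  obtain ⟨hLaw, hJ⟩ := psH hc hc' hK hT hδ
  refine ⟨⟨?_, ?_⟩, ⟨K, fun φ hφ X hX => ?_⟩, ?_, ?_⟩
  · have h1 := hLaw.all
    have e : ind (fun n => n % 2 = 1) = ind (fun n => n % 2 = 1 ∧ (fun _ : ℕ => True) n) := by
      funext n
      exact ind_congr (by simp)
    rw [e] at h1
    exact along_of h1 (fun n _ => by simp)
  · exact along_of hLaw.fin (fun n hn => by rw [height_lt_top_iff, ht_ex hn])
  · -- the transfer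
    have h1 := TS_congr (G := fun z => if z % 2 = 1 then φ (height z.toNat) else 0)
      (hT _ (async_Fg (g := fun _ o => φ ((max o 1 : ℕ) : ℕ∞)) (g0 := φ ⊤) (fun _ _ => hφ _) (hφ _)) (fun m _ => by
        simp only [Int.toNat_natCast]
        exact Fg_two (g := fun o => φ ((max o 1 : ℕ) : ℕ∞)) m))
      (fun x => by
        split_ifs
        · exact hφ _
        · simp) (fun m => by
        simp only [Int.toNat_natCast]
        by_cases hm : m % 2 = 1
        · rw [if_pos (by omega), if_pos (by omega)]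
          by_cases h : ∃ k, H k m
          · obtain ⟨k, hk⟩ := h
            rw [Fg_H hk, height_H hm hk]
          · rw [Fg_not h, height_not hm h]
        · rw [if_neg (by omega), if_neg (by omega)])
    have h2 := h1.2 X hX
    have e1 : ∑ n ∈ Finset.Icc 1 X, (fun z : ℤ => if z % 2 = 1 then φ (height z.toNat) else 0) ⌊(n : ℝ) ^ c⌋ =
        ∑ n ∈ OddTerms c X, φ (height (ps c n)) := by
      unfold OddTerms
      rw [Finset.sum_filter]
      apply Finset.sum_congr rfl
      intro n _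
      have e : (⌊(n : ℝ) ^ c⌋ : ℤ) = ((ps c n : ℕ) : ℤ) :=
        (Int.natCast_floor_eq_floor (by positivity)).symm
      dsimp only
      rw [e, Int.toNat_natCast]
      by_cases hm : ps c n % 2 = 1
      · rw [if_pos (by omega), if_pos hm]
      · rw [if_neg (by omega), if_neg hm]
    rw [e1] at h2
    have e2 : ∑ m ∈ Finset.Icc 1 ⌊(X : ℝ) ^ c⌋₊, (fun z : ℤ => if z % 2 = 1 then φ (height z.toNat) else 0) (m : ℤ) *
        Pool.Agent.Y965.PS.ell (1 / c) m =
        ∑ m ∈ (Finset.Icc 1 (ps c X)).filter (fun m => m % 2 = 1),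
          (((m : ℝ) + 1) ^ (1 / c) - (m : ℝ) ^ (1 / c)) * φ (height m) := by
      rw [Finset.sum_filter]
      apply Finset.sum_congr rfl
      intro m _
      simp only [Int.toNat_natCast]
      by_cases hm : m % 2 = 1
      · rw [if_pos (by omega), if_pos hm, mul_comm]; rfl
      · rw [if_neg (by omega), if_neg hm, zero_mul]
    rw [e2] at h2
    exact h2
  · intro q b x hq
    have h1 := hJ q b hq x
    have e : δ / q * Pool.Agent.H499R2.ND.Phi x / 2 = (δ * Phi x / q) / 2 := by
      have : Pool.Agent.H499R2.ND.Phi x = Phi x := Pool.Agent.H499R2.ND.phi_cdf x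
      rw [this]; ring
    rw [e] at h1
    exact along_of h1 (fun n hn => level_iff q b x hn)
  · intro Λ hΛ
    set f : ℝ → ℕ → ℝ := fun t n => Fg (fun _ o => min ((max o 1 : ℕ) : ℝ) t) t n with hf
    have hIs : IsTr valH f := by
      constructor
      · intro t n k hk
        rw [hf]
        exact Fg_H hk
      · intro t n hn
        rw [hf]
        exact Fg_not hn
    have hff : ∀ t m, m % 2 = 1 → f t m = truncated t m := by
      intro t m hm
      unfold truncated
      by_cases h : ∃ k, H k m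
      · obtain ⟨k, hk⟩ := h
        rw [height_H hm hk, if_neg (ENat.natCast_ne_top _), ENat.toNat_natCast]
        exact Fg_H hk
      · rw [height_not hm h, if_pos rfl]
        exact Fg_not h
    have e0 : 1 / Real.log (4 / 3) * c = 2 * c / Real.log (16 / 9) := by
      rw [← log_eq]; ring
    have h1 := ps_avg hc (fun _ _ => Nat.cast_nonneg _) (by positivity) bO_pos hLaw hIs (Λ := Λ) (by rw [e0]; exact hΛ)
    rw [e0] at h1
    have h4 := h1.const_mul 2
    have e3 : 2 * (δ / 2 * (2 * c / Real.log (16 / 9)) + (1 / 2 - δ / 2) * Λ) =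
        δ * (2 * c / Real.log (16 / 9)) + (1 - δ) * Λ := by ring
    rw [e3] at h4
    refine h4.congr fun X => ?_
    have e4 : ∑ n ∈ Finset.Icc 1 X, (if Pool.Agent.Y965.PL.ps c n % 2 = 1 then
        f (Λ * Real.log X) (Pool.Agent.Y965.PL.ps c n) else 0) =
        ∑ n ∈ OddTerms c X, truncated (Λ * Real.log X) (ps c n) := by
      unfold OddTerms
      rw [Finset.sum_filter]
      apply Finset.sum_congr rfl
      intro n _
      by_cases hm : ps c n % 2 = 1
      · rw [if_pos hm, if_pos (show Pool.Agent.Y965.PL.ps c n % 2 = 1 from hm), ← hff _ _ hm]; rfl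
      · rw [if_neg hm, if_neg (show ¬ Pool.Agent.Y965.PL.ps c n % 2 = 1 from hm)]
    have e5 : ∀ S : ℝ, S = ∑ n ∈ OddTerms c X, truncated (Λ * Real.log X) (ps c n) →
        2 * (S / (X * Real.log X)) = 2 / (X * Real.log X) * ∑ n ∈ OddTerms c X, truncated (Λ * Real.log X) (ps c n) := by
      rintro _ rfl
      ring
    apply e5
    rw [← e4]
    refine Finset.sum_congr rfl fun n _ => ?_
    split_ifs <;> rfl

end Pool.Agent.Results.MP_2b866c_nt.PiatetskiShapiroHeights
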